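import Pool.Agent.Lib.MP_4d119b_lc.Main

/-! The limiting density of a minor-closed class given by excluded minors is computable. -/

namespace Pool.Agent.Results.MP_4d119b_lc.LimitDensityComputable

open Filter

/-- the graph coded by `(n, l)`: vertex set `{0, ..., n - 1}`, distinct vertices `i`, `j` are
adjacent when `(i, j)` or `(j, i)` is in the list `l` -/
def graphOf (c : ℕ × List (ℕ × ℕ)) : SimpleGraph (Fin c.1) where
  Adj i j := i ≠ j ∧ (((i : ℕ), (j : ℕ)) ∈ c.2 ∨ ((j : ℕ), (i : ℕ)) ∈ c.2)
  symm := ⟨fun _ _ h => ⟨h.1.symm, h.2.symm⟩⟩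
  loopless := ⟨fun _ h => h.1 rfl⟩

/-- `H` is a minor of `G`: there are pairwise disjoint branch sets in `G`, one for every vertex
of `H`, each inducing a (nonempty) connected subgraph, such that the branch sets of adjacent
vertices of `H` are joined by an edge of `G` -/
def Minor {W V : Type} (H : SimpleGraph W) (G : SimpleGraph V) : Prop :=
  ∃ B : W → Set V, (∀ w, (G.induce (B w)).Connected) ∧
    (∀ w w', w ≠ w' → Disjoint (B w) (B w')) ∧
    ∀ w w', H.Adj w w' → ∃ x ∈ B w, ∃ y ∈ B w', G.Adj x y

/-- `M(n)`: the largest average degree `2 |E(G)| / n` of a graph `G` on `n` vertices having none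
of the graphs coded in `L` as a minor (`0` if there is no such graph) -/
noncomputable def maxDegree (L : List (ℕ × List (ℕ × ℕ))) (n : ℕ) : ℝ :=
  sSup {d : ℝ | ∃ G : SimpleGraph (Fin n), (∀ c ∈ L, ¬ Minor (graphOf c) G) ∧
    d = 2 * (G.edgeSet.ncard : ℝ) / n}

/-- the limiting density `limsup M(n)` of the class of graphs having none of the graphs coded in
`L` as a minor -/
noncomputable def limd (L : List (ℕ × List (ℕ × ℕ))) : EReal :=
  limsup (fun n : ℕ => ((maxDegree L n : ℝ) : EReal)) atTop

theorem minor_iff {W V : Type} {H : SimpleGraph W} {G : SimpleGraph V} :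
    Minor H G ↔ Pool.Agent.Lib.MP_4d119b_lc.IsMinor H G := by
  unfold Minor Pool.Agent.Lib.MP_4d119b_lc.IsMinor
  simp only [Pool.Agent.Lib.MP_4d119b_lc.conn_iff_connected]
  rfl

theorem inF_iff {V : Type} {G : SimpleGraph V} {L : List (ℕ × List (ℕ × ℕ))} :
    (∀ c ∈ L, ¬ Minor (graphOf c) G) ↔ Pool.Agent.Lib.MP_4d119b_lc.InF L G := by
  unfold Pool.Agent.Lib.MP_4d119b_lc.InF
  constructor
  · intro h c hc hm
    exact h c hc (minor_iff.2 hm)
  · intro h c hc hm
    exact h c hc (minor_iff.1 hm)

theorem maxDegree_nonneg (L : List (ℕ × List (ℕ × ℕ))) (n : ℕ) : 0 ≤ maxDegree L n := by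
  apply Real.sSup_nonneg
  rintro _ ⟨G, _, rfl⟩
  positivity

theorem maxDegree_le {L : List (ℕ × List (ℕ × ℕ))} {n : ℕ} {x : ℝ} (hx : 0 ≤ x)
    (h : ∀ G : SimpleGraph (Fin n), Pool.Agent.Lib.MP_4d119b_lc.InF L G →
      2 * (G.edgeSet.ncard : ℝ) / n ≤ x) : maxDegree L n ≤ x := by
  apply Real.sSup_le _ hx
  rintro _ ⟨G, hG, rfl⟩
  exact h G (inF_iff.1 hG)

theorem le_maxDegree {L : List (ℕ × List (ℕ × ℕ))} {n : ℕ} (G : SimpleGraph (Fin n))
    (hG : Pool.Agent.Lib.MP_4d119b_lc.InF L G) :
    2 * (G.edgeSet.ncard : ℝ) / n ≤ maxDegree L n := by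
  apply le_csSup
  · have : {d : ℝ | ∃ G : SimpleGraph (Fin n), (∀ c ∈ L, ¬ Minor (graphOf c) G) ∧
        d = 2 * (G.edgeSet.ncard : ℝ) / n} ⊆
        Set.range (fun G : SimpleGraph (Fin n) => 2 * (G.edgeSet.ncard : ℝ) / n) := by
      rintro _ ⟨G, _, rfl⟩
      exact ⟨G, rfl⟩
    exact ((Set.finite_range _).subset this).bddAbove
  · exact ⟨G, inF_iff.2 hG, rfl⟩

/-- there is a computable (even primitive recursive) function that computes the limiting density
of the class of graphs without the minors `H_1, ..., H_k`, as a rational number, from the input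
`H_1, ..., H_k` -/
theorem result : ∃ f : List (ℕ × List (ℕ × ℕ)) → ℕ × ℕ, Computable f ∧ Primrec f ∧
    ∀ L : List (ℕ × List (ℕ × ℕ)), L ≠ [] → (f L).2 ≠ 0 ∧
      limd L = ((((f L).1 : ℝ) / ((f L).2 : ℝ) : ℝ) : EReal) := by
  obtain ⟨f, hf, hfL⟩ := Pool.Agent.Lib.MP_4d119b_lc.main_bounds
  refine ⟨f, hf.to_comp, hf, ?_⟩
  intro L hL
  obtain ⟨h1, ⟨C, hC, hup⟩, hlow⟩ := hfL L hL
  refine ⟨h1.ne', ?_⟩
  set r : ℝ := ((f L).1 : ℝ) / ((f L).2 : ℝ) with hr
  have hr0 : 0 ≤ r := by positivity
  apply le_antisymm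
  · -- upper bound
    have h2 : ∀ᶠ n : ℕ in atTop, ((maxDegree L n : ℝ) : EReal) ≤ ((r + C / n : ℝ) : EReal) := by
      filter_upwards [eventually_gt_atTop 0] with n hn
      rw [EReal.coe_le_coe_iff]
      have hn0 : (0 : ℝ) < n := by exact_mod_cast hn
      refine maxDegree_le (by positivity) ?_
      intro G hG
      rw [div_le_iff₀ hn0]
      have h3 := hup n G hG
      have h4 : (r + C / n) * n = r * n + C := by field_simp
      rw [h4]
      exact h3
    have h3 : Tendsto (fun n : ℕ => ((r + C / n : ℝ) : EReal)) atTop (nhds (r : EReal)) := by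
      rw [EReal.tendsto_coe]
      have := (tendsto_const_div_atTop_nhds_zero_nat C).const_add r
      rwa [add_zero] at this
    exact (limsup_le_limsup h2).trans h3.limsup_eq.le
  · -- lower bound
    rcases hlow with h0 | ⟨a, b, hb, hper⟩
    · have hr' : r = 0 := by rw [hr, h0]; simp
      rw [hr']
      have h2 : ∀ᶠ n : ℕ in atTop, ((0 : ℝ) : EReal) ≤ ((maxDegree L n : ℝ) : EReal) :=
        Eventually.of_forall fun n => EReal.coe_le_coe_iff.2 (maxDegree_nonneg L n)
      have h3 : limsup (fun _ : ℕ => ((0 : ℝ) : EReal)) atTop = ((0 : ℝ) : EReal) := limsup_const _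
      rw [← h3]
      exact limsup_le_limsup h2
    · have hb0 : (0 : ℝ) < b := by exact_mod_cast hb
      let φ : ℕ → ℕ := fun N => a + (N + 1) * b
      have hφ : Tendsto φ atTop atTop := by
        apply tendsto_atTop_mono (f := fun N => N) _ tendsto_id
        intro N
        simp only [φ]
        nlinarith
      have h2 : ∀ N : ℕ, ((r * (N * b) / (a + (N + 1) * b) : ℝ) : EReal) ≤
          ((maxDegree L (φ N) : ℝ) : EReal) := by
        intro N
        rw [EReal.coe_le_coe_iff]
        obtain ⟨G, hG, hGe⟩ := hper N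
        refine le_trans ?_ (le_maxDegree G hG)
        have h4 : ((a + (N + 1) * b : ℕ) : ℝ) = a + (N + 1) * b := by push_cast; ring
        rw [h4]
        gcongr
      have h3 : Tendsto (fun N : ℕ => ((r * (N * b) / (a + (N + 1) * b) : ℝ) : EReal)) atTop
          (nhds (r : EReal)) := by
        rw [EReal.tendsto_coe]
        have e1 : ∀ᶠ N : ℕ in atTop, r - r * (a + b) / (N : ℝ) / b ≤
            r * (N * b) / (a + (N + 1) * b) := by
          filter_upwards [eventually_gt_atTop 0] with N hN
          have hN0 : (0 : ℝ) < N := by exact_mod_cast hN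
          rw [le_div_iff₀ (by positivity)]
          have : (r - r * (a + b) / (N : ℝ) / b) * (a + (N + 1) * b) =
              r * (N * b) - r * (a + b) * (a + b) / (N * b) := by
            field_simp
            ring
          rw [this]
          have : 0 ≤ r * (a + b) * (a + b) / (N * b) := by positivity
          linarith
        have e2 : ∀ᶠ N : ℕ in atTop, r * (N * b) / (a + (N + 1) * b) ≤ r := by
          filter_upwards with N
          rw [div_le_iff₀ (by positivity)]
          have : 0 ≤ r * (a + b) := by positivity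
          nlinarith
        have e3 : Tendsto (fun N : ℕ => r - r * (a + b) / (N : ℝ) / b) atTop (nhds r) := by
          have := ((tendsto_const_div_atTop_nhds_zero_nat (r * (a + b))).div_const (b : ℝ)).const_sub r
          simpa using this
        exact tendsto_of_tendsto_of_tendsto_of_le_of_le' e3 tendsto_const_nhds e1 e2
      calc (r : EReal) = limsup (fun N : ℕ => ((r * (N * b) / (a + (N + 1) * b) : ℝ) : EReal))
            atTop := h3.limsup_eq.symm
        _ ≤ limsup (fun N : ℕ => ((maxDegree L (φ N) : ℝ) : EReal)) atTop :=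
            limsup_le_limsup (Eventually.of_forall h2)
        _ = limsup (fun n : ℕ => ((maxDegree L n : ℝ) : EReal)) (map φ atTop) := rfl
        _ ≤ limd L := limsup_le_limsup_of_le hφ

end Pool.Agent.Results.MP_4d119b_lc.LimitDensityComputable
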